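import Pool.Agent.J6H23.TC.Vol

/-!
# The sums of three cubes in a residue class
-/

set_option autoImplicit false

namespace Pool.Agent.J6H23.TC

/-- The number of the triples `(a, b, c)` with `0 ≤ a, b, c < q` and `a³ + b³ + c³ ≡ r` modulo `q`
(for `0 ≤ r < q`). -/
def M (q r : ℕ) : ℕ :=
  ((Fintype.piFinset fun _ : Fin 3 => Finset.range q).filter
    fun s => (∑ i, s i ^ 3) % q = r).card

theorem card_class (q r X : ℕ) (hq : 0 < q) :
    ((triples X).filter fun s => (∑ i, s i ^ 3) % q = r).card ≤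
      M q r * (triples (X / q ^ 3)).card := by
  rw [M, ← Finset.card_product]
  refine Finset.card_le_card_of_injOn (fun s => (fun i => s i % q, fun i => s i / q)) ?_ ?_
  · intro s hs
    rw [Finset.mem_coe, Finset.mem_filter, mem_triples] at hs
    rw [Finset.mem_coe, Finset.mem_product, Finset.mem_filter, Fintype.mem_piFinset, mem_triples]
    refine ⟨⟨fun i => Finset.mem_range.mpr (Nat.mod_lt _ hq), ?_⟩, ?_⟩
    · rw [← hs.2, Finset.sum_nat_mod, Finset.sum_nat_mod (f := fun i => s i ^ 3)]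
      congr 1
      refine Finset.sum_congr rfl fun i _ => ?_
      exact (Nat.pow_mod (s i % q) 3 q).trans (by rw [Nat.mod_mod, ← Nat.pow_mod])
    · rw [Nat.le_div_iff_mul_le (pow_pos hq 3), Finset.sum_mul]
      refine le_trans (Finset.sum_le_sum fun i _ => ?_) hs.1
      rw [← mul_pow]
      exact Nat.pow_le_pow_left (Nat.div_mul_le_self _ _) 3
  · intro s _ t _ hst
    simp only [Prod.mk.injEq] at hst
    funext i
    have h1 := congrFun hst.1 i
    have h2 := congrFun hst.2 i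
    rw [← Nat.div_add_mod (s i) q, ← Nat.div_add_mod (t i) q, h1, h2]

/-- The sums of three cubes in a residue class. -/
noncomputable def S (q r X : ℕ) : Finset ℕ := by
  classical
  exact (Finset.Icc 1 X).filter fun n => n % q = r ∧ ∃ s : Fin 3 → ℕ, n = ∑ i, s i ^ 3

/-- The sums of three cubes, two of which are equal. -/
noncomputable def D (X : ℕ) : Finset ℕ := by
  classical
  exact (Finset.Icc 1 X).filter fun n => ∃ a c : ℕ, n = 2 * a ^ 3 + c ^ 3

theorem le_root {a X : ℕ} (h : a ^ 3 ≤ X) : (a : ℝ) ≤ (X : ℝ) ^ (1 / (3 : ℝ)) := by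
  have h1 : ((a : ℝ) ^ (3 : ℝ)) ^ (1 / (3 : ℝ)) = a := by
    rw [← Real.rpow_mul (Nat.cast_nonneg _)]
    norm_num
  rw [← h1]
  refine Real.rpow_le_rpow (by positivity) ?_ (by norm_num)
  have h2 : (a : ℝ) ^ (3 : ℝ) = ((a ^ 3 : ℕ) : ℝ) := by
    rw [Nat.cast_pow]
    exact_mod_cast Real.rpow_natCast (a : ℝ) 3
  rw [h2]
  exact_mod_cast h

theorem card_D (X : ℕ) : ((D X).card : ℝ) ≤ ((X : ℝ) ^ (1 / (3 : ℝ)) + 1) ^ 2 := by
  classical
  set t : ℝ := (X : ℝ) ^ (1 / (3 : ℝ)) with ht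
  have ht0 : 0 ≤ t := by positivity
  set K : ℕ := ⌊t⌋₊ with hK
  have hsub : D X ⊆ (Finset.range (K + 1) ×ˢ Finset.range (K + 1)).image
      (fun x : ℕ × ℕ => 2 * x.1 ^ 3 + x.2 ^ 3) := by
    intro n hn
    unfold D at hn
    rw [Finset.mem_filter, Finset.mem_Icc] at hn
    obtain ⟨⟨_, hn2⟩, a, c, rfl⟩ := hn
    rw [Finset.mem_image]
    refine ⟨(a, c), ?_, rfl⟩
    rw [Finset.mem_product, Finset.mem_range, Finset.mem_range]
    have ha : a ^ 3 ≤ X := by omega
    have hc : c ^ 3 ≤ X := by omega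
    exact ⟨Nat.lt_succ_of_le (Nat.le_floor (le_root ha)),
      Nat.lt_succ_of_le (Nat.le_floor (le_root hc))⟩
  have h1 : (D X).card ≤ (K + 1) ^ 2 := by
    refine le_trans (Finset.card_le_card hsub) (le_trans Finset.card_image_le ?_)
    rw [Finset.card_product, Finset.card_range, pow_two]
  have h2 : (K : ℝ) ≤ t := Nat.floor_le ht0
  have h3 : ((D X).card : ℝ) ≤ ((K : ℝ) + 1) ^ 2 := by exact_mod_cast h1
  refine le_trans h3 ?_
  have h4 : (0 : ℝ) ≤ K := Nat.cast_nonneg K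
  gcongr

theorem six_mul (q r X : ℕ) :
    6 * ((S q r X) \ (D X)).card ≤ ((triples X).filter fun s => (∑ i, s i ^ 3) % q = r).card := by
  classical
  have hrep : ∀ n : ℕ, ∃ s : Fin 3 → ℕ, n ∈ S q r X \ D X →
      (n = ∑ i, s i ^ 3) ∧ Function.Injective s := by
    intro n
    by_cases hn : n ∈ S q r X \ D X
    · rw [Finset.mem_sdiff] at hn
      unfold S D at hn
      rw [Finset.mem_filter, Finset.mem_filter] at hn
      obtain ⟨⟨hnI, _, s, hs⟩, hD⟩ := hn
      refine ⟨s, fun _ => ⟨hs, ?_⟩⟩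
      have hno : ∀ a c : ℕ, n ≠ 2 * a ^ 3 + c ^ 3 := fun a c h => hD ⟨hnI, a, c, h⟩
      rw [Fin.sum_univ_three] at hs
      have h01 : s 0 ≠ s 1 := fun h => hno (s 1) (s 2) (by rw [hs, h]; ring)
      have h02 : s 0 ≠ s 2 := fun h => hno (s 2) (s 1) (by rw [hs, h]; ring)
      have h12 : s 1 ≠ s 2 := fun h => hno (s 2) (s 0) (by rw [hs, h]; ring)
      intro i j hij
      fin_cases i <;> fin_cases j <;> simp_all
    · exact ⟨fun _ => 0, fun h => absurd h hn⟩
  choose f hf using hrep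
  have hperm : 6 = (Finset.univ : Finset (Equiv.Perm (Fin 3))).card := by
    rw [Finset.card_univ, Fintype.card_perm, Fintype.card_fin]
    rfl
  rw [hperm, ← Finset.card_product]
  refine Finset.card_le_card_of_injOn (fun x => f x.2 ∘ x.1) ?_ ?_
  · rintro ⟨σ, n⟩ hn
    rw [Finset.mem_coe, Finset.mem_product] at hn
    have hn' := hn.2
    obtain ⟨h1, _⟩ := hf n hn'
    rw [Finset.mem_sdiff] at hn'
    have hS := hn'.1
    unfold S at hS
    rw [Finset.mem_filter, Finset.mem_Icc] at hS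
    have hsum : ∑ i, (f n ∘ σ) i ^ 3 = n := by
      conv_rhs => rw [h1]
      exact Equiv.sum_comp σ (fun i => f n i ^ 3)
    rw [Finset.mem_coe, Finset.mem_filter, mem_triples]
    simp only
    rw [hsum]
    exact ⟨hS.1.2, hS.2.1⟩
  · rintro ⟨σ, n⟩ hn ⟨τ, m⟩ hm hst
    rw [Finset.mem_coe, Finset.mem_product] at hn hm
    simp only at hst
    have h1 : ∑ i, (f n ∘ σ) i ^ 3 = n := by
      conv_rhs => rw [(hf n hn.2).1]
      exact Equiv.sum_comp σ (fun i => f n i ^ 3)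
    have h2 : ∑ i, (f m ∘ τ) i ^ 3 = m := by
      conv_rhs => rw [(hf m hm.2).1]
      exact Equiv.sum_comp τ (fun i => f m i ^ 3)
    have hnm : n = m := by rw [← h1, ← h2, hst]
    subst hnm
    have hστ : σ = τ := by
      ext i
      have := congrFun hst i
      exact congrArg Fin.val ((hf n hn.2).2 this)
    rw [hστ]

theorem card_S_le_div (q r X : ℕ) : (S q r X).card ≤ X / q + 1 := by
  classical
  have : (S q r X).card ≤ (Finset.range (X / q + 1)).card := by
    refine Finset.card_le_card_of_injOn (fun n => n / q) ?_ ?_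
    · intro n hn
      unfold S at hn
      rw [Finset.mem_coe, Finset.mem_filter, Finset.mem_Icc] at hn
      rw [Finset.mem_coe, Finset.mem_range]
      exact Nat.lt_succ_of_le (Nat.div_le_div_right hn.1.2)
    · intro n hn m hm hnm
      unfold S at hn hm
      rw [Finset.mem_coe, Finset.mem_filter] at hn hm
      simp only at hnm
      rw [← Nat.div_add_mod n q, ← Nat.div_add_mod m q, hnm, hn.2.1, hm.2.1]
  rwa [Finset.card_range] at this

theorem card_S_le (q r X : ℕ) (hq : 0 < q) : ((S q r X).card : ℝ) ≤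
    (M q r : ℝ) * (Real.Gamma (4 / 3) ^ 3 * ((X : ℝ) ^ (1 / (3 : ℝ)) / q + 2) ^ 3) / 6 +
      ((X : ℝ) ^ (1 / (3 : ℝ)) + 1) ^ 2 := by
  classical
  have h1 : (S q r X).card ≤ ((S q r X) \ (D X)).card + (D X).card := by
    have := Finset.card_le_card (Finset.subset_union_left (s₁ := S q r X) (s₂ := D X))
    have h2 : S q r X ∪ D X = (S q r X \ D X) ∪ D X := by
      rw [Finset.sdiff_union_self_eq_union]
    rw [h2] at this
    exact le_trans this (Finset.card_union_le _ _)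
  have h2 := six_mul q r X
  have h3 := card_class q r X hq
  have h4 := card_triples (X / q ^ 3)
  have h5 := card_D X
  have hq' : (0 : ℝ) < q := by exact_mod_cast hq
  have hG : 0 < Real.Gamma (4 / 3) := Real.Gamma_pos_of_pos (by norm_num)
  have h6 : ((X / q ^ 3 : ℕ) : ℝ) ^ (1 / (3 : ℝ)) ≤ (X : ℝ) ^ (1 / (3 : ℝ)) / q := by
    have h7 : ((X / q ^ 3 : ℕ) : ℝ) ≤ (X : ℝ) / (q : ℝ) ^ 3 := by
      refine le_trans Nat.cast_div_le ?_
      rw [Nat.cast_pow]
    have h8 : ((q : ℝ) ^ 3) ^ (1 / (3 : ℝ)) = q := by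
      rw [show (q : ℝ) ^ 3 = (q : ℝ) ^ (3 : ℝ) by exact_mod_cast (Real.rpow_natCast (q : ℝ) 3).symm,
        ← Real.rpow_mul hq'.le]
      norm_num
    calc ((X / q ^ 3 : ℕ) : ℝ) ^ (1 / (3 : ℝ)) ≤ ((X : ℝ) / (q : ℝ) ^ 3) ^ (1 / (3 : ℝ)) :=
          Real.rpow_le_rpow (Nat.cast_nonneg _) h7 (by norm_num)
      _ = (X : ℝ) ^ (1 / (3 : ℝ)) / q := by
          rw [Real.div_rpow (Nat.cast_nonneg _) (by positivity), h8]
  have h9 : Real.Gamma (4 / 3) ^ 3 * (((X / q ^ 3 : ℕ) : ℝ) ^ (1 / (3 : ℝ)) + 2) ^ 3 ≤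
      Real.Gamma (4 / 3) ^ 3 * ((X : ℝ) ^ (1 / (3 : ℝ)) / q + 2) ^ 3 := by
    gcongr
  have h10 : (6 : ℝ) * (((S q r X) \ (D X)).card : ℝ) ≤
      (M q r : ℝ) * ((triples (X / q ^ 3)).card : ℝ) := by
    exact_mod_cast le_trans h2 h3
  have h11 : (M q r : ℝ) * ((triples (X / q ^ 3)).card : ℝ) ≤
      (M q r : ℝ) * (Real.Gamma (4 / 3) ^ 3 * ((X : ℝ) ^ (1 / (3 : ℝ)) / q + 2) ^ 3) :=
    mul_le_mul_of_nonneg_left (le_trans h4 h9) (Nat.cast_nonneg _)
  have h12 : ((S q r X).card : ℝ) ≤ (((S q r X) \ (D X)).card : ℝ) + ((D X).card : ℝ) := by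
    exact_mod_cast h1
  linarith

end Pool.Agent.J6H23.TC
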