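import Pool.Agent.J6H23.TC.Count

/-!
# The density of the class `0` modulo `8 ^ j` is at least `j / 4`
-/

set_option autoImplicit false

namespace Pool.Agent.J6H23.TC

theorem sum_M (q : ℕ) (hq : 0 < q) : ∑ r ∈ Finset.range q, M q r = q ^ 3 := by
  have h1 : (Fintype.piFinset fun _ : Fin 3 => Finset.range q).card = q ^ 3 := by
    rw [Fintype.card_piFinset]
    simp
  rw [← h1]
  unfold M
  exact (Finset.card_eq_sum_card_fiberwise (f := fun s : Fin 3 → ℕ => (∑ i, s i ^ 3) % q)
    (fun s _ => Finset.mem_coe.mpr (Finset.mem_range.mpr (Nat.mod_lt _ hq)))).symm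

/-- Odd residues modulo a power of `2` are cubes. -/
theorem exists_cube (m : ℕ) (a : ℕ) (ha : a % 2 = 1) :
    ∃ c : ℕ, c < 2 ^ (m + 1) ∧ (a + c ^ 3) % 2 ^ (m + 1) = 0 := by
  have : NeZero (2 ^ (m + 1)) := ⟨by positivity⟩
  have hcop : Nat.Coprime a (2 ^ (m + 1)) := by
    apply Nat.Coprime.pow_right
    rw [Nat.coprime_two_right]
    exact Nat.odd_iff.mpr ha
  have hcard : (Nat.card (ZMod (2 ^ (m + 1)))ˣ).Coprime 3 := by
    rw [Nat.card_eq_fintype_card, ZMod.card_units_eq_totient,
      Nat.totient_prime_pow Nat.prime_two (Nat.succ_pos m)]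
    simp only [Nat.succ_sub_one]
    apply Nat.Coprime.mul_left
    · exact Nat.Coprime.pow_left _ (by norm_num)
    · norm_num
  obtain ⟨y, hy⟩ := (powCoprime hcard).surjective (-(ZMod.unitOfCoprime a hcop))
  refine ⟨(y : ZMod (2 ^ (m + 1))).val, ZMod.val_lt _, ?_⟩
  have h1 : ((y : ZMod (2 ^ (m + 1))) ^ 3) = -(a : ZMod (2 ^ (m + 1))) := by
    have h2 : y ^ 3 = -(ZMod.unitOfCoprime a hcop) := hy
    have h3 := congrArg (fun u : (ZMod (2 ^ (m + 1)))ˣ => (u : ZMod (2 ^ (m + 1)))) h2
    simpa using h3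
  rw [← Nat.dvd_iff_mod_eq_zero, ← ZMod.natCast_eq_zero_iff]
  push_cast
  rw [ZMod.natCast_val, ZMod.cast_id]
  simp [h1]

theorem M_step (j : ℕ) : 4 * 64 * M (8 ^ j) 0 + 64 ^ (j + 1) ≤ 4 * M (8 ^ (j + 1)) 0 := by
  classical
  -- the set of the solutions modulo `8 ^ (j + 1)`
  set A : Finset (Fin 3 → ℕ) := (Fintype.piFinset fun _ : Fin 3 => Finset.range (8 ^ (j + 1))).filter
    fun s => (∑ i, s i ^ 3) % 8 ^ (j + 1) = 0 with hA
  have hA' : M (8 ^ (j + 1)) 0 = (A.filter fun s => s 1 % 2 = 0).card +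
      (A.filter fun s => ¬ s 1 % 2 = 0).card := by
    rw [M, ← hA, Finset.card_filter_add_card_filter_not]
  have h8 : 8 ^ (j + 1) = 8 * 8 ^ j := by rw [pow_succ]; ring
  have hpos : 0 < 8 ^ j := by positivity
  -- even solutions
  have h1 : 64 * M (8 ^ j) 0 ≤ (A.filter fun s => s 1 % 2 = 0).card := by
    have hcard : ((Fintype.piFinset fun _ : Fin 3 => Finset.range 4)).card = 64 := by
      rw [Fintype.card_piFinset]
      simp
    rw [← hcard, M, ← Finset.card_product]
    refine Finset.card_le_card_of_injOn (fun x i => 2 * (x.2 i + 8 ^ j * x.1 i)) ?_ ?_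
    · rintro ⟨t, s⟩ hx
      rw [Finset.mem_coe, Finset.mem_product, Finset.mem_filter, Fintype.mem_piFinset,
        Fintype.mem_piFinset] at hx
      obtain ⟨ht, hs, hsum⟩ := hx
      rw [Finset.mem_coe, Finset.mem_filter, hA, Finset.mem_filter, Fintype.mem_piFinset]
      refine ⟨⟨fun i => ?_, ?_⟩, by simp⟩
      · have h1 := Finset.mem_range.mp (ht i)
        have h2 := Finset.mem_range.mp (hs i)
        rw [Finset.mem_range, h8]
        simp only at h1 h2 ⊢
        have h3 : 8 ^ j * t i ≤ 8 ^ j * 3 := Nat.mul_le_mul_left _ (by omega)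
        omega
      · rw [← Nat.dvd_iff_mod_eq_zero, h8]
        have h2 : ∑ i, (2 * (s i + 8 ^ j * t i)) ^ 3 = 8 * ∑ i, (s i + 8 ^ j * t i) ^ 3 := by
          rw [Finset.mul_sum]
          refine Finset.sum_congr rfl fun i _ => ?_
          ring
        simp only
        rw [h2]
        refine Nat.mul_dvd_mul_left 8 ?_
        have h3 : (∑ i, (s i + 8 ^ j * t i) ^ 3) ≡ (∑ i, s i ^ 3) [MOD 8 ^ j] := by
          have h4 : ∀ i, (s i + 8 ^ j * t i) ^ 3 ≡ s i ^ 3 [MOD 8 ^ j] := by
            intro i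
            refine Nat.ModEq.pow 3 ?_
            exact (Nat.modEq_zero_iff_dvd.mpr (Dvd.intro _ rfl)).add_left _ |>.trans (by rw [add_zero])
          simp only [Fin.sum_univ_three]
          exact ((h4 0).add (h4 1)).add (h4 2)
        exact (Nat.modEq_zero_iff_dvd.mp (h3.trans hsum))
    · rintro ⟨t, s⟩ hx ⟨t', s'⟩ hx' h
      rw [Finset.mem_coe, Finset.mem_product, Finset.mem_filter, Fintype.mem_piFinset,
        Fintype.mem_piFinset] at hx hx'
      have hs : ∀ i, s i = s' i ∧ t i = t' i := by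
        intro i
        have h2 := congrFun h i
        simp only at h2
        have h3 : s i + 8 ^ j * t i = s' i + 8 ^ j * t' i := by omega
        have h4 := Finset.mem_range.mp (hx.2.1 i)
        have h5 := Finset.mem_range.mp (hx'.2.1 i)
        simp only at h4 h5
        have h6 : s i = s' i := by
          have := congrArg (fun z => z % 8 ^ j) h3
          simpa [Nat.add_mul_mod_self_left, Nat.mod_eq_of_lt h4, Nat.mod_eq_of_lt h5] using this
        refine ⟨h6, ?_⟩
        have h7 : 8 ^ j * t i = 8 ^ j * t' i := by omega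
        exact Nat.eq_of_mul_eq_mul_left hpos h7
      exact Prod.ext (funext fun i => (hs i).2) (funext fun i => (hs i).1)
  -- primitive solutions
  have h2 : 64 ^ (j + 1) ≤ 4 * (A.filter fun s => ¬ s 1 % 2 = 0).card := by
    set h := 4 * 8 ^ j with hh
    have hch : ∀ x : ℕ × ℕ, ∃ c : ℕ, c < 8 ^ (j + 1) ∧
        ((2 * x.1) ^ 3 + (2 * x.2 + 1) ^ 3 + c ^ 3) % 8 ^ (j + 1) = 0 := by
      intro x
      have h3 : (8 : ℕ) ^ (j + 1) = 2 ^ (3 * j + 2 + 1) := by
        rw [show (8 : ℕ) = 2 ^ 3 by norm_num, ← pow_mul]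
        congr 1
      rw [h3]
      refine exists_cube (3 * j + 2) _ ?_
      have h4 : (2 * x.1) ^ 3 + (2 * x.2 + 1) ^ 3 =
          2 * (4 * x.1 ^ 3 + 4 * x.2 ^ 3 + 6 * x.2 ^ 2 + 3 * x.2) + 1 := by ring
      rw [h4]
      omega
    choose c hc using hch
    have h3 : h * h ≤ (A.filter fun s => ¬ s 1 % 2 = 0).card := by
      have h4 : h * h = (Finset.range h ×ˢ Finset.range h).card := by
        rw [Finset.card_product, Finset.card_range]
      rw [h4]
      refine Finset.card_le_card_of_injOn (fun x => ![2 * x.1, 2 * x.2 + 1, c x]) ?_ ?_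
      · rintro ⟨x, y⟩ hx
        rw [Finset.mem_coe, Finset.mem_product, Finset.mem_range, Finset.mem_range] at hx
        rw [Finset.mem_coe, Finset.mem_filter, hA, Finset.mem_filter, Fintype.mem_piFinset]
        have h5 := hc (x, y)
        refine ⟨⟨fun i => ?_, ?_⟩, ?_⟩
        · rw [Finset.mem_range]
          simp only at hx
          fin_cases i
          · simp only [Fin.zero_eta, Matrix.cons_val_zero]
            omega
          · simp only [Fin.mk_one, Matrix.cons_val_one, Matrix.cons_val_zero]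
            omega
          · simpa using h5.1
        · rw [Fin.sum_univ_three]
          simpa using h5.2
        · simp only [Matrix.cons_val_one, Matrix.cons_val_zero]
          omega
      · rintro ⟨x, y⟩ _ ⟨x', y'⟩ _ hxy
        have h5 := congrFun hxy 0
        have h6 := congrFun hxy 1
        simp at h5 h6
        rw [h5, h6]
    have h5 : 64 ^ (j + 1) = 4 * (h * h) := by
      rw [hh, pow_succ, show (64 : ℕ) ^ j = 8 ^ j * 8 ^ j by rw [← mul_pow]; norm_num]
      ring
    omega
  omega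

theorem M_zero_ge (j : ℕ) : j * 64 ^ j ≤ 4 * M (8 ^ j) 0 := by
  induction j with
  | zero => simp
  | succ j ih =>
    have h1 := M_step j
    have h2 : (j + 1) * 64 ^ (j + 1) = 64 * (j * 64 ^ j) + 64 ^ (j + 1) := by ring
    omega

end Pool.Agent.J6H23.TC
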