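import Mathlib

/-!
# The number of triples of nonnegative integers whose cubes have a sum at most `X`
-/

set_option autoImplicit false

namespace Pool.Agent.J6H23.TC

open MeasureTheory

/-- The two open intervals of the real numbers `t` with `k < |t| < k + 1`. -/
def cell (k : ℕ) : Set ℝ := Set.Ioo (k : ℝ) (k + 1) ∪ Set.Ioo (-((k : ℝ) + 1)) (-(k : ℝ))

theorem measurableSet_cell (k : ℕ) : MeasurableSet (cell k) :=
  measurableSet_Ioo.union measurableSet_Ioo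

theorem volume_cell (k : ℕ) : volume (cell k) = 2 := by
  have hdisj : Disjoint (Set.Ioo (k : ℝ) (k + 1)) (Set.Ioo (-((k : ℝ) + 1)) (-(k : ℝ))) := by
    rw [Set.disjoint_left]
    intro t h1 h2
    have hk : (0 : ℝ) ≤ k := Nat.cast_nonneg k
    have := h1.1
    have := h2.2
    linarith
  rw [cell, measure_union hdisj measurableSet_Ioo, Real.volume_Ioo, Real.volume_Ioo]
  have h1 : ((k : ℝ) + 1 - k) = 1 := by ring
  have h2 : (-(k : ℝ) - -((k : ℝ) + 1)) = 1 := by ring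
  rw [h1, h2, ENNReal.ofReal_one]
  norm_num

theorem abs_of_cell {k : ℕ} {t : ℝ} (ht : t ∈ cell k) : (k : ℝ) < |t| ∧ |t| < k + 1 := by
  have hk : (0 : ℝ) ≤ k := Nat.cast_nonneg k
  rcases ht with ⟨h1, h2⟩ | ⟨h1, h2⟩
  · rw [abs_of_pos (lt_of_le_of_lt hk h1)]
    exact ⟨h1, h2⟩
  · rw [abs_of_neg (by linarith)]
    constructor <;> linarith

/-- The box of a triple. -/
def box (s : Fin 3 → ℕ) : Set (Fin 3 → ℝ) := Set.pi Set.univ fun i => cell (s i)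

theorem volume_box (s : Fin 3 → ℕ) : volume (box s) = 8 := by
  rw [box, volume_pi_pi]
  simp only [volume_cell]
  simp
  norm_num

theorem measurableSet_box (s : Fin 3 → ℕ) : MeasurableSet (box s) :=
  MeasurableSet.pi Set.countable_univ fun i _ => measurableSet_cell (s i)

theorem disjoint_box {s t : Fin 3 → ℕ} (h : s ≠ t) : Disjoint (box s) (box t) := by
  rw [Set.disjoint_left]
  intro x hx hy
  apply h
  funext i
  have h1 := abs_of_cell (hx i (Set.mem_univ i))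
  have h2 := abs_of_cell (hy i (Set.mem_univ i))
  have h3 : ((s i : ℕ) : ℝ) < (t i : ℝ) + 1 := lt_trans h1.1 h2.2
  have h4 : ((t i : ℕ) : ℝ) < (s i : ℝ) + 1 := lt_trans h2.1 h1.2
  have h5 : s i < t i + 1 := by exact_mod_cast h3
  have h6 : t i < s i + 1 := by exact_mod_cast h4
  omega

theorem box_subset {X : ℕ} {s : Fin 3 → ℕ} (hs : ∑ i, s i ^ 3 ≤ X) :
    box s ⊆ {x : Fin 3 → ℝ | (∑ i, |x i| ^ (3 : ℝ)) ^ (1 / (3 : ℝ)) ≤
      (X : ℝ) ^ (1 / (3 : ℝ)) + 2} := by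
  intro x hx
  show (∑ i, |x i| ^ (3 : ℝ)) ^ (1 / (3 : ℝ)) ≤ (X : ℝ) ^ (1 / (3 : ℝ)) + 2
  have h1 : (∑ i, |x i| ^ (3 : ℝ)) ^ (1 / (3 : ℝ)) ≤
      (∑ i, |(s i : ℝ) + 1| ^ (3 : ℝ)) ^ (1 / (3 : ℝ)) := by
    refine Real.rpow_le_rpow (Finset.sum_nonneg fun i _ => Real.rpow_nonneg (abs_nonneg _) _) ?_
      (by norm_num)
    refine Finset.sum_le_sum fun i _ => Real.rpow_le_rpow (abs_nonneg _) ?_ (by norm_num)
    rw [abs_of_nonneg (by positivity : (0 : ℝ) ≤ (s i : ℝ) + 1)]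
    exact (abs_of_cell (hx i (Set.mem_univ i))).2.le
  have h2 := Real.Lp_add_le Finset.univ (fun i => (s i : ℝ)) (fun _ : Fin 3 => (1 : ℝ))
    (p := 3) (by norm_num)
  have h3 : (∑ i, |(s i : ℝ)| ^ (3 : ℝ)) ^ (1 / (3 : ℝ)) ≤ (X : ℝ) ^ (1 / (3 : ℝ)) := by
    refine Real.rpow_le_rpow (Finset.sum_nonneg fun i _ => Real.rpow_nonneg (abs_nonneg _) _) ?_
      (by norm_num)
    have h4 : ((∑ i, s i ^ 3 : ℕ) : ℝ) ≤ (X : ℝ) := by exact_mod_cast hs
    rw [Nat.cast_sum] at h4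
    refine le_trans (le_of_eq ?_) h4
    refine Finset.sum_congr rfl fun i _ => ?_
    rw [abs_of_nonneg (Nat.cast_nonneg _), Nat.cast_pow]
    exact_mod_cast Real.rpow_natCast (s i : ℝ) 3
  have h5 : (∑ _i : Fin 3, |(1 : ℝ)| ^ (3 : ℝ)) ^ (1 / (3 : ℝ)) ≤ 2 := by
    have h6 : (∑ _i : Fin 3, |(1 : ℝ)| ^ (3 : ℝ)) = 3 := by simp
    rw [h6]
    have h7 : (3 : ℝ) ^ (1 / (3 : ℝ)) ≤ (8 : ℝ) ^ (1 / (3 : ℝ)) :=
      Real.rpow_le_rpow (by norm_num) (by norm_num) (by norm_num)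
    refine le_trans h7 (le_of_eq ?_)
    have h8 : (8 : ℝ) = (2 : ℝ) ^ (3 : ℝ) := by
      rw [show (3 : ℝ) = ((3 : ℕ) : ℝ) by norm_num, Real.rpow_natCast]
      norm_num
    rw [h8, ← Real.rpow_mul (by norm_num)]
    norm_num
  linarith

/-- The set of the triples of nonnegative integers whose cubes have a sum at most `X`. -/
def triples (X : ℕ) : Finset (Fin 3 → ℕ) :=
  (Fintype.piFinset fun _ : Fin 3 => Finset.range (X + 1)).filter fun s => ∑ i, s i ^ 3 ≤ X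

theorem mem_triples {X : ℕ} {s : Fin 3 → ℕ} : s ∈ triples X ↔ ∑ i, s i ^ 3 ≤ X := by
  rw [triples, Finset.mem_filter, Fintype.mem_piFinset]
  refine ⟨fun h => h.2, fun h => ⟨fun i => ?_, h⟩⟩
  rw [Finset.mem_range]
  have h1 : s i ^ 3 ≤ ∑ j, s j ^ 3 :=
    Finset.single_le_sum (f := fun j => s j ^ 3) (fun _ _ => Nat.zero_le _) (Finset.mem_univ i)
  have h2 : s i ≤ s i ^ 3 := Nat.le_self_pow (by norm_num) _
  omega

/-- The volume bound. -/
theorem card_triples (X : ℕ) : ((triples X).card : ℝ) ≤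
    Real.Gamma (4 / 3) ^ 3 * ((X : ℝ) ^ (1 / (3 : ℝ)) + 2) ^ 3 := by
  have hr : (0 : ℝ) ≤ (X : ℝ) ^ (1 / (3 : ℝ)) + 2 := by positivity
  have h1 : volume (⋃ s ∈ triples X, box s) = ∑ s ∈ triples X, volume (box s) :=
    measure_biUnion_finset (fun s _ t _ h => disjoint_box h) fun s _ => measurableSet_box s
  have h2 : volume (⋃ s ∈ triples X, box s) ≤
      volume {x : Fin 3 → ℝ | (∑ i, |x i| ^ (3 : ℝ)) ^ (1 / (3 : ℝ)) ≤
        (X : ℝ) ^ (1 / (3 : ℝ)) + 2} :=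
    measure_mono (Set.iUnion₂_subset fun s hs => box_subset (mem_triples.mp hs))
  have h0 := MeasureTheory.volume_sum_rpow_le (ι := Fin 3) (p := 3) (by norm_num)
    ((X : ℝ) ^ (1 / (3 : ℝ)) + 2)
  rw [h1, h0] at h2
  simp only [volume_box, Finset.sum_const, Fintype.card_fin] at h2
  have h3 : ((3 : ℕ) : ℝ) / 3 + 1 = 2 := by norm_num
  have h4 : (1 : ℝ) / 3 + 1 = 4 / 3 := by norm_num
  have h5 : Real.Gamma 2 = 1 := Real.Gamma_two
  rw [h3, h4, h5, div_one, ← ENNReal.ofReal_pow hr, ← ENNReal.ofReal_mul (by positivity),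
    nsmul_eq_mul] at h2
  have h6 : ((triples X).card : ENNReal) * 8 = ENNReal.ofReal ((triples X).card * 8 : ℝ) := by
    rw [ENNReal.ofReal_mul (Nat.cast_nonneg _), ENNReal.ofReal_natCast]
    norm_num
  rw [h6, ENNReal.ofReal_le_ofReal_iff (by
    have := Real.Gamma_pos_of_pos (show (0 : ℝ) < 4 / 3 by norm_num)
    positivity)] at h2
  have h7 : (2 * Real.Gamma (4 / 3)) ^ 3 = 8 * Real.Gamma (4 / 3) ^ 3 := by ring
  rw [h7] at h2
  linarith

end Pool.Agent.J6H23.TC
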